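import Pool.Agent.H11.Shad1

open H11.Shad

theorem Pool.Agent.Results.MP_26672a_co.Counter.result :
    ∃ (r n s k l : ℕ) (G : Finset (Fin (n + 1) → Fin r)), 2 ≤ r ∧ 2 ≤ n + 1 ∧ 2 ≤ s ∧ s ≤ r ∧
      k + 1 ≤ n + 1 ∧ l + k + 1 ≤ n + 1 ∧ G.card = (Fam r (n + 1) s k l).card ∧
      (shadow G).card < (shadow (Fam r (n + 1) s k l)).card :=
  ⟨3, 3, 3, 0, 1, G0, by norm_num, by norm_num, by norm_num, by norm_num, by norm_num,
    by norm_num, G0_card.trans F_card.symm, by rw [G0_sh, F_sh]; norm_num⟩
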